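import Mathlib
import Pool.Agent.R870.Tors
import Pool.Agent.R870.Cyc
import Pool.Agent.TH717.GO.Hyb
import Pool.Agent.TH409.SH.Fin2

set_option autoImplicit false

/-! # Varieties without rational curves and multipliers of small height -/

namespace Pool.Agent.R408.HSM

open MvPolynomial Pool.Agent.Helper259.AbsHt Pool.Agent.H533R3.SL Pool.Agent.Y215.SP
  Pool.Agent.TH717.GO Pool.Agent.R870

variable {n N r : ℕ}

/-- the points of projective space over `L` with homogeneous coordinates `∑ t_j v_j`, for algebraic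
numbers `t_j` such that `(t_1 : … : t_r)` has height less than `ε`, which are zeros of the `P_i` -/
def smallPts {k L : Type} [Field k] [Field L] [Algebra k L] (ι : Qbar →+* L)
    (P : Fin N → MvPolynomial (Fin (n + 1)) k) (ε : ℝ)
    (v : Fin r → Fin (n + 1) → L) : Set (Projectivization L (Fin (n + 1) → L)) :=
  {p | ∃ t : Fin r → Qbar, absLogHeight t < ε ∧
    (∀ i, aeval (pt ι v t) (P i) = 0) ∧
    ∃ h : pt ι v t ≠ 0, p = Projectivization.mk L (pt ι v t) h}

/-- the zeros of the `P_i` with homogeneous coordinates `∑ ζ_j v_j`, for roots of unity `ζ_j` -/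
def torsPts {k L : Type} [Field k] [Field L] [Algebra k L]
    (P : Fin N → MvPolynomial (Fin (n + 1)) k)
    (v : Fin r → Fin (n + 1) → L) : Set (Projectivization L (Fin (n + 1) → L)) :=
  {p | ∃ ζ : Fin r → L, (∀ j, ∃ m : ℕ, 0 < m ∧ ζ j ^ m = 1) ∧
    (∀ i, aeval (fun a => ∑ j, ζ j * v j a) (P i) = 0) ∧
    ∃ h : (fun a => ∑ j, ζ j * v j a) ≠ 0, p = Projectivization.mk L _ h}

/-- the zeros of the `P_i` with homogeneous coordinates `∑ α_j v_j`, for cyclotomic integers `α_j`
of `L` whose conjugates have mean square at most `B` -/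
def cycPts {k L : Type} [Field k] [Field L] [Algebra k L]
    (P : Fin N → MvPolynomial (Fin (n + 1)) k) (B : ℝ)
    (v : Fin r → Fin (n + 1) → L) : Set (Projectivization L (Fin (n + 1) → L)) :=
  {p | ∃ α : Fin r → L, (∀ j, CycInt B (α j)) ∧
    (∀ i, aeval (fun a => ∑ j, α j * v j a) (P i) = 0) ∧
    ∃ h : (fun a => ∑ j, α j * v j a) ≠ 0, p = Projectivization.mk L _ h}

theorem smallPts_eq {k L : Type} [Field k] [Field L] [Algebra k L] (ι : Qbar →+* L)
    (P : Fin N → MvPolynomial (Fin (n + 1)) k) (ε : ℝ) (v : Fin r → Fin (n + 1) → L) :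
    smallPts ι P ε v = smallOff ι P 1 ε v := by
  ext p
  constructor
  · rintro ⟨t, h1, h2, h3⟩
    exact ⟨t, h1, h2, by rw [map_one]; exact one_ne_zero, h3⟩
  · rintro ⟨t, h1, h2, -, h3⟩
    exact ⟨t, h1, h2, h3⟩

theorem cycPts_eq {k L : Type} [Field k] [Field L] [Algebra k L]
    (P : Fin N → MvPolynomial (Fin (n + 1)) k) (B : ℝ) (v : Fin r → Fin (n + 1) → L) :
    cycPts P B v = cycOff P 1 B v := by
  ext p
  constructor
  · rintro ⟨t, h1, h2, h3⟩
    exact ⟨t, h1, h2, by rw [map_one]; exact one_ne_zero, h3⟩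
  · rintro ⟨t, h1, h2, -, h3⟩
    exact ⟨t, h1, h2, h3⟩

theorem torsPts_eq {k L : Type} [Field k] [Field L] [Algebra k L]
    (P : Fin N → MvPolynomial (Fin (n + 1)) k) (v : Fin r → Fin (n + 1) → L) :
    torsPts P v = torsOff P 1 v := by
  ext p
  constructor
  · rintro ⟨t, h1, h2, h3⟩
    exact ⟨t, h1, h2, by rw [map_one]; exact one_ne_zero, h3⟩
  · rintro ⟨t, h1, h2, -, h3⟩
    exact ⟨t, h1, h2, h3⟩

/-- no nonconstant curve over any extension of `k` -/
theorem no_cur {k : Type} [Field k] [NumberField k] (σ : k →+* ℂ)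
    (P : Fin N → MvPolynomial (Fin (n + 1)) k) (h : NoRatC σ (Set.range P))
    {L : Type} [Field L] [Algebra k L] {R : ℕ} (c : Fin R → Fin (n + 1) → L) (l : Fin R → ℕ)
    (hz : ∀ i, MvPolynomial.aeval (cur c l) (P i) = 0)
    (hc : ∃ i i', cur c l i * Polynomial.C (∑ j, c j i') ≠
      cur c l i' * Polynomial.C (∑ j, c j i)) : False := by
  classical
  obtain ⟨i, i', hne⟩ := hc
  have h1 := noRat_all σ (Set.range P) h (Finset.univ.image l).card L (cur c l)
    (Finset.univ.image l) le_rfl (fun i m hm => ?_) (by rintro _ ⟨i, rfl⟩; exact hz i)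
    (by rw [map_one]; exact one_ne_zero) i i'
  · apply hne
    have h2 : ∀ i, (cur c l i).eval 1 = ∑ j, c j i := by
      intro i
      unfold cur
      rw [Polynomial.eval_finsetSum]
      refine Finset.sum_congr rfl fun j _ => ?_
      rw [Polynomial.eval_mul, Polynomial.eval_C, Polynomial.eval_pow, Polynomial.eval_X, one_pow,
        mul_one]
    rw [h2, h2] at h1
    exact h1
  · rw [Polynomial.mem_support_iff] at hm
    by_contra hcon
    apply hm
    unfold cur
    rw [Polynomial.finsetSum_coeff]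
    refine Finset.sum_eq_zero fun j _ => ?_
    rw [Polynomial.coeff_C_mul, Polynomial.coeff_X_pow, if_neg, mul_zero]
    rintro rfl
    exact hcon (Finset.mem_image.2 ⟨j, Finset.mem_univ _, rfl⟩)

/-- **Uniform bound for the points with multipliers of small height.** -/
theorem small_bound {k : Type} [Field k] [NumberField k] (σ : k →+* ℂ)
    (P : Fin N → MvPolynomial (Fin (n + 1)) k) (d : ℕ) (hd : 1 ≤ d)
    (hP : ∀ i, ∃ e, e ≤ d ∧ (P i).IsHomogeneous e) (h : NoRatC σ (Set.range P))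
    {L : Type} [Field L] [Algebra k L] (ι : Qbar →+* L) (v : Fin r → Fin (n + 1) → L) :
    (smallPts ι P (epsn ((d + 1) ^ r) / d) v).encard ≤ (2 ^ r * M0 ((d + 1) ^ r) d r : ℕ) := by
  rw [smallPts_eq]
  exact card_smallOff P d hd hP 1 (fun c l hz hc => (no_cur σ P h c l hz hc).elim) ι v

/-- the points of a nonconstant curve over a number field, in an extension -/
theorem transfer {k K : Type} [Field k] [Field K] [Algebra k K] {M : ℕ}
    (P : Fin N → MvPolynomial (Fin (n + 1)) k) (v : Fin M → Fin (n + 1) → K)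
    (hv1 : ∀ i, aeval (cur v (fun j => (j : ℕ))) (P i) = 0)
    (hv2 : ∃ i j, cur v (fun j => (j : ℕ)) i * Polynomial.C ((cur v (fun j => (j : ℕ)) j).eval 1) ≠
      cur v (fun j => (j : ℕ)) j * Polynomial.C ((cur v (fun j => (j : ℕ)) i).eval 1))
    (L : Type) [Field L] [Algebra k L] (φ : K →ₐ[k] L) :
    (∀ (z : L) (i : Fin N), aeval (cpt (fun j a => φ (v j a)) z) (P i) = 0) ∧
    ∀ S : Set L, S.Infinite →
      (curvePts (1 : MvPolynomial (Fin (n + 1)) k) (fun j a => φ (v j a)) S).Infinite := by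
  obtain ⟨j1, j2, hv2⟩ := hv2
  have hmap : ∀ F : MvPolynomial (Fin (n + 1)) k,
      (aeval (cur (fun j a => φ (v j a)) (fun j : Fin M => (j : ℕ))) F : Polynomial L) =
        (aeval (cur v (fun j => (j : ℕ))) F : Polynomial K).map (φ : K →+* L) := by
    intro F
    have h0 : cur (fun j a => φ (v j a)) (fun j : Fin M => (j : ℕ)) =
        fun i => (cur v (fun j => (j : ℕ)) i).map (φ : K →+* L) := by
      funext i
      exact cur_map (φ : K →+* L) v _ i
    rw [h0]
    show _ = Polynomial.mapRingHom (φ : K →+* L) _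
    rw [MvPolynomial.aeval_def, MvPolynomial.aeval_def,
      MvPolynomial.hom_eval₂ F _ (Polynomial.mapRingHom (φ : K →+* L)) _]
    congr 1
    refine RingHom.ext fun a => ?_
    rw [RingHom.comp_apply, Polynomial.algebraMap_apply, Polynomial.algebraMap_apply]
    show Polynomial.C _ = Polynomial.map _ (Polynomial.C _)
    rw [Polynomial.map_C]
    congr 1
    exact (φ.commutes a).symm
  refine ⟨fun z i => ?_, fun S hS => ?_⟩
  · rw [aeval_cpt, hmap, hv1 i, Polynomial.map_zero, Polynomial.eval_zero]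
  · refine curve_inf (1 : MvPolynomial (Fin (n + 1)) k) _ ⟨j1, j2, ?_⟩
      (by rw [map_one]; exact one_ne_zero) S hS
    intro h
    apply hv2
    apply Polynomial.map_injective (φ : K →+* L) (φ : K →+* L).injective
    have e1 : ∀ i, cur (fun j a => φ (v j a)) (fun j : Fin M => (j : ℕ)) i =
        (cur v (fun j => (j : ℕ)) i).map (φ : K →+* L) := cur_map (φ : K →+* L) v _
    rw [e1, e1] at h
    rw [Polynomial.map_mul, Polynomial.map_mul, Polynomial.map_C, Polynomial.map_C]
    have e2 : ∀ i, Polynomial.eval 1 (Polynomial.map (φ : K →+* L)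
        (cur v (fun j : Fin M => (j : ℕ)) i)) =
        (φ : K →+* L) (Polynomial.eval 1 (cur v (fun j => (j : ℕ)) i)) := by
      intro i
      rw [← Polynomial.eval_map_apply, map_one]
    rw [e2, e2] at h
    exact h

/-- **Converse**: a rational curve gives infinitely many points with roots of unity. -/
theorem curve_of {k : Type} [Field k] [NumberField k] (σ : k →+* ℂ)
    (P : Fin N → MvPolynomial (Fin (n + 1)) k) (h : ¬ NoRatC σ (Set.range P)) :
    ∃ (r : ℕ) (_ : Algebra k Qbar) (v : Fin r → Fin (n + 1) → Qbar),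
      (∀ z : Qbar, ∀ i, aeval (cpt v z) (P i) = 0) ∧
      ∀ S : Set Qbar, S.Infinite → (curvePts (1 : MvPolynomial (Fin (n + 1)) k) v S).Infinite := by
  classical
  unfold NoRatC at h
  push Not at h
  obtain ⟨q, hq, i1, i2, a, b, hab⟩ := h
  let _ : Algebra k ℂ := σ.toAlgebra
  have hC : (Polynomial.C.comp σ : k →+* Polynomial ℂ) = algebraMap k (Polynomial ℂ) := by
    refine RingHom.ext fun x => ?_
    rw [Polynomial.algebraMap_apply]
    rfl
  -- translate the parameter
  let s : Polynomial ℂ := Polynomial.X + Polynomial.C (b - 1)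
  let q' : Fin (n + 1) → Polynomial ℂ := fun i => (q i).comp s
  have hev : ∀ i z, (q' i).eval z = (q i).eval (z + (b - 1)) := by
    intro i z
    simp [q', s]
  have hq' : ∀ F ∈ Set.range P, aeval q' F = 0 := by
    intro F hF
    have h1 := hq F hF
    have h2 : aeval q F = (0 : Polynomial ℂ) := by
      rw [MvPolynomial.aeval_def, ← hC]
      exact h1
    apply Polynomial.funext
    intro z
    have h3 := congrArg (Polynomial.eval (z + (b - 1))) h2
    rw [Polynomial.eval_zero] at h3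
    rw [Polynomial.eval_zero]
    have key : ∀ (w : ℂ) (p : Fin (n + 1) → Polynomial ℂ),
        Polynomial.eval w (aeval p F) = aeval (fun i => (p i).eval w) F := by
      intro w p
      rw [MvPolynomial.aeval_def, MvPolynomial.aeval_def]
      show Polynomial.evalRingHom w _ = _
      rw [MvPolynomial.hom_eval₂]
      congr 1
      refine RingHom.ext fun x => ?_
      rw [RingHom.comp_apply, Polynomial.algebraMap_apply]
      show Polynomial.eval w (Polynomial.C _) = _
      rw [Polynomial.eval_C]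
    rw [key] at h3 ⊢
    rw [← h3]
    congr 2
    funext i
    exact hev i z
  obtain ⟨M, hM⟩ : ∃ M : ℕ, ∀ i m, M ≤ m → (q' i).coeff m = 0 := by
    refine ⟨∑ i, (q' i).natDegree + 1, fun i m hm => Polynomial.coeff_eq_zero_of_natDegree_lt ?_⟩
    have : (q' i).natDegree ≤ ∑ i, (q' i).natDegree :=
      Finset.single_le_sum (f := fun i => (q' i).natDegree) (fun _ _ => Nat.zero_le _)
        (Finset.mem_univ i)
    omega
  have hnc : ∃ i j, q' i * Polynomial.C ((q' j).eval 1) ≠ q' j * Polynomial.C ((q' i).eval 1) := by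
    refine ⟨i1, i2, fun h => hab ?_⟩
    have h2 := congrArg (Polynomial.eval (a - (b - 1))) h
    rw [Polynomial.eval_mul, Polynomial.eval_mul, Polynomial.eval_C, Polynomial.eval_C, hev, hev,
      hev, hev] at h2
    have e1 : a - (b - 1) + (b - 1) = a := by ring
    have e2 : (1 : ℂ) + (b - 1) = b := by ring
    rw [e1, e2] at h2
    exact h2
  obtain ⟨K, _, _, _, v, hv1, hv2, -⟩ :=
    Pool.Agent.TH409.SH.specialise (n := n) k ℂ q' (Set.range P) hq' M hM hnc 1
      (by rw [map_one]; exact one_ne_zero)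
  obtain ⟨φ⟩ : Nonempty (K →+* Qbar) := ⟨(IsAlgClosed.lift : K →ₐ[ℚ] Qbar).toRingHom⟩
  let _ : Algebra k Qbar := (φ.comp (algebraMap k K)).toAlgebra
  let φ' : K →ₐ[k] Qbar := { φ with commutes' := fun _ => rfl }
  obtain ⟨h1, h2⟩ := transfer P v (fun i => hv1 _ ⟨i, rfl⟩) hv2 Qbar φ'
  exact ⟨M, inferInstance, fun j a => φ' (v j a), h1, h2⟩

theorem tors_conv {k : Type} [Field k] [NumberField k] (σ : k →+* ℂ)
    (P : Fin N → MvPolynomial (Fin (n + 1)) k) (h : ¬ NoRatC σ (Set.range P)) :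
    ∃ (r : ℕ) (_ : Algebra k Qbar) (v : Fin r → Fin (n + 1) → Qbar), (torsPts P v).Infinite := by
  obtain ⟨r, i1, v, h1, h2⟩ := curve_of σ P h
  refine ⟨r, i1, v, ?_⟩
  refine (h2 _ (roots_infinite (RingHom.id Qbar))).mono ?_
  rintro p ⟨z, ⟨m, hm, hz⟩, -, h0, hp⟩
  refine ⟨fun j => z ^ (j : ℕ), fun j => ⟨m, hm, ?_⟩, fun i => h1 z i, h0, hp⟩
  rw [← pow_mul, mul_comm, pow_mul, hz, one_pow]

/-- **Uniform bound for the points with cyclotomic multipliers.** -/
theorem cyc_bound (d r : ℕ) (B : ℝ) : ∃ M : ℕ, ∀ (k : Type) [Field k] [NumberField k]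
    (σ : k →+* ℂ) (n N : ℕ)
    (P : Fin N → MvPolynomial (Fin (n + 1)) k), (∀ i, ∃ e, e ≤ d ∧ (P i).IsHomogeneous e) →
    NoRatC σ (Set.range P) →
      ∀ (L : Type) [Field L] [Algebra k L] (v : Fin r → Fin (n + 1) → L),
        (cycPts P B v).encard ≤ M := by
  obtain ⟨D, hD⟩ := cycOff_subset B
  refine ⟨2 ^ (r * D) * M0 ((d + 1 + 1) ^ (r * D)) (d + 1) (r * D),
    fun k _ _ σ n N P hP hno L _ _ v => ?_⟩
  rw [cycPts_eq]
  have : CharZero L := charZero_of_injective_algebraMap (algebraMap k L).injective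
  let φ : L →ₐ[k] AlgebraicClosure L := IsScalarTower.toAlgHom k L (AlgebraicClosure L)
  have : CharZero (AlgebraicClosure L) :=
    charZero_of_injective_algebraMap (algebraMap L (AlgebraicClosure L)).injective
  obtain ⟨ι⟩ : Nonempty (Qbar →+* AlgebraicClosure L) := exists_emb _
  refine (cycOff_ext (AlgebraicClosure L) φ P 1 B v).trans ?_
  refine (Set.encard_le_encard (hD ι n N r P 1 _ (epsn ((d + 1 + 1) ^ (r * D)) / (d + 1 : ℕ))
    ?_)).trans ?_
  · exact div_pos (epsn_pos _ (Nat.one_le_pow _ _ (by omega))) (by positivity)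
  · rw [← smallPts_eq]
    exact small_bound σ P (d + 1) (by omega)
      (fun i => (hP i).imp fun e he => ⟨he.1.trans (Nat.le_succ d), he.2⟩) hno ι _

/-- **Converse.** -/
theorem cyc_conv {k : Type} [Field k] [NumberField k] (σ : k →+* ℂ)
    (P : Fin N → MvPolynomial (Fin (n + 1)) k) (h : ¬ NoRatC σ (Set.range P)) :
    ∃ (r : ℕ) (_ : Algebra k Qbar) (v : Fin r → Fin (n + 1) → Qbar), (cycPts P 1 v).Infinite := by
  obtain ⟨r, i1, v, hv⟩ := tors_conv σ P h
  refine ⟨r, i1, v, hv.mono ?_⟩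
  rintro p ⟨ζ, hζ, h1, h3, h4⟩
  refine ⟨ζ, fun j => ?_, h1, h3, h4⟩
  obtain ⟨m, hm, hz⟩ := hζ j
  have h5 : 0 < orderOf (ζ j) := orderOf_pos_iff.2 (isOfFinOrder_iff_pow_eq_one.2 ⟨m, hm, hz⟩)
  refine ⟨orderOf (ζ j), ζ j, Polynomial.X, h5, IsPrimitiveRoot.orderOf _, ?_,
    Polynomial.aeval_X _⟩
  have h6 : (∑ z ∈ primitiveRoots (orderOf (ζ j)) ℂ,
      ‖Polynomial.aeval z (Polynomial.X : Polynomial ℤ)‖ ^ 2) =
      ((orderOf (ζ j)).totient : ℝ) := by
    rw [Finset.sum_congr rfl (g := fun _ => (1 : ℝ)), Finset.sum_const, Complex.card_primitiveRoots,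
      nsmul_eq_mul, mul_one]
    intro z hz
    rw [mem_primitiveRoots h5] at hz
    rw [Polynomial.aeval_X, hz.norm'_eq_one h5.ne', one_pow]
  rw [h6, div_self]
  exact_mod_cast (Nat.totient_pos.2 h5).ne'

/-- a Brody hyperbolic variety has no rational curves -/
theorem brody_noRat {k : Type} [Field k] (σ : k →+* ℂ)
    (P : Fin N → MvPolynomial (Fin (n + 1)) k) (hP : ∀ i, ∃ e, (P i).IsHomogeneous e)
    (hyp : Pool.Agent.H458.Sp.BrodyHyperbolic ((MvPolynomial.map σ) '' Set.range P)) :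
    NoRatC σ (Set.range P) := by
  intro q hq i j a b
  refine Pool.Agent.TH409.SH.no_curveC' _ ?_ hyp q ?_ i j a b
  · rintro _ ⟨_, ⟨i, rfl⟩, rfl⟩
    obtain ⟨e, he⟩ := hP i
    exact ⟨e, he.map _⟩
  · rintro _ ⟨F, hF, rfl⟩
    rw [MvPolynomial.aeval_def, MvPolynomial.eval₂_map]
    exact hq F hF

end Pool.Agent.R408.HSM
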